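import Pool.Agent.H73R2.Iv.Defs
import Pool.Agent.H175R2.Cut

set_option autoImplicit false

/-!
# The multi-scale family of interval graphs (TEAM-IV, task M)

Vertices `(j, i)` = the half open interval `[2^j (2 i + 1), 2^j (2 i + 3))`.
-/

namespace Pool.Agent.H375R2.IvM

open SimpleGraph Pool.Agent.H175R2 Pool.Agent.H73R2.Iv

/-- left end -/
def lo (p : ℕ × ℕ) : ℕ := 2 ^ p.1 * (2 * p.2 + 1)

/-- right end -/
def hi (p : ℕ × ℕ) : ℕ := 2 ^ p.1 * (2 * p.2 + 3)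

/-- the half open intervals meet -/
def adj (p q : ℕ × ℕ) : Prop := lo p < hi q ∧ lo q < hi p

theorem adj_comm {p q : ℕ × ℕ} : adj p q ↔ adj q p := and_comm

theorem lo_lt_hi (p : ℕ × ℕ) : lo p < hi p := by
  unfold lo hi
  exact Nat.mul_lt_mul_of_pos_left (by omega) (by positivity)

theorem adj_level {p q : ℕ × ℕ} (h : adj p q) (hl : p.1 = q.1) : p = q := by
  obtain ⟨h1, h2⟩ := h
  unfold lo hi at h1 h2
  rw [hl] at h1 h2
  have h3 := Nat.lt_of_mul_lt_mul_left h1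
  have h4 := Nat.lt_of_mul_lt_mul_left h2
  exact Prod.ext hl (by omega)

theorem level_eq {a b x y : ℕ} (h : 2 ^ a * (2 * x + 1) = 2 ^ b * (2 * y + 1)) : a = b := by
  rcases lt_trichotomy a b with h1 | h1 | h1
  · exfalso
    obtain ⟨d, rfl⟩ := Nat.exists_eq_add_of_lt h1
    have h2 : 2 ^ (a + d + 1) * (2 * y + 1) = 2 ^ a * (2 * (2 ^ d * (2 * y + 1))) := by ring
    rw [h2] at h
    have h3 := Nat.eq_of_mul_eq_mul_left (by positivity) h
    omega
  · exact h1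
  · exfalso
    obtain ⟨d, rfl⟩ := Nat.exists_eq_add_of_lt h1
    have h2 : 2 ^ (b + d + 1) * (2 * x + 1) = 2 ^ b * (2 * (2 ^ d * (2 * x + 1))) := by ring
    rw [h2] at h
    have h3 := Nat.eq_of_mul_eq_mul_left (by positivity) h
    omega

theorem bdry {p q a : ℕ × ℕ} (hpq : p.1 < q.1) (h : adj p q) (ha : adj a p) (hq : ¬ adj a q) :
    ∃ x, 2 ^ q.1 * (2 * x + 1) = 2 ^ p.1 * (2 * p.2 + 2) := by
  have h0 : lo p < lo q ∨ hi q < hi p := by
    by_contra hcon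
    push Not at hcon
    exact hq ⟨lt_of_lt_of_le ha.1 hcon.2, lt_of_le_of_lt hcon.1 ha.2⟩
  obtain ⟨d, hd⟩ := Nat.exists_eq_add_of_lt hpq
  obtain ⟨h1, h2⟩ := h
  rcases h0 with h0 | h0
  · refine ⟨q.2, ?_⟩
    unfold lo at h0
    unfold lo hi at h2
    rw [hd] at h0 h2 ⊢
    have e : 2 ^ (p.1 + d + 1) * (2 * q.2 + 1) = 2 ^ p.1 * (2 * (2 ^ d * (2 * q.2 + 1))) := by ring
    rw [e] at h0 h2 ⊢
    have h3 := Nat.lt_of_mul_lt_mul_left h0
    have h4 := Nat.lt_of_mul_lt_mul_left h2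
    congr 1
    omega
  · refine ⟨q.2 + 1, ?_⟩
    unfold hi at h0
    unfold lo hi at h1
    rw [hd] at h0 h1 ⊢
    have e : 2 ^ (p.1 + d + 1) * (2 * q.2 + 3) = 2 ^ p.1 * (2 * (2 ^ d * (2 * q.2 + 3))) := by ring
    have e' : 2 ^ (p.1 + d + 1) * (2 * (q.2 + 1) + 1)
        = 2 ^ p.1 * (2 * (2 ^ d * (2 * q.2 + 3))) := by ring
    rw [e] at h0 h1
    rw [e']
    have h3 := Nat.lt_of_mul_lt_mul_left h0
    have h4 := Nat.lt_of_mul_lt_mul_left h1
    congr 1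
    omega

theorem key {p q q' a : ℕ × ℕ} (h1 : p.1 < q.1) (h2 : p.1 < q'.1) (h3 : adj p q) (h4 : adj p q')
    (h5 : adj a p) (h6 : ¬ adj a q) (h7 : ¬ adj a q') (h8 : adj q q') (h9 : q ≠ q') : False := by
  obtain ⟨x, hx⟩ := bdry h1 h3 h5 h6
  obtain ⟨y, hy⟩ := bdry h2 h4 h5 h7
  exact h9 (adj_level h8 (level_eq (hx.trans hy.symm)))

/-! ### counting -/

theorem card_sep (S : Finset ℕ) (f : ℕ → ℕ) (k : ℕ) (hf : ∀ i ∈ S, f i < k)
    (hsep : ∀ i ∈ S, ∀ i' ∈ S, i + 2 ≤ i' → f i ≠ f i') : S.card ≤ 2 * k := by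
  have h : S.card ≤ (Finset.range k ×ˢ Finset.range 2).card := by
    apply Finset.card_le_card_of_injOn (fun i => (f i, i % 2))
    · intro i hi
      simp only [Finset.coe_product, Set.mem_prod, Finset.mem_coe, Finset.mem_range]
      exact ⟨hf i hi, Nat.mod_lt _ (by norm_num)⟩
    · intro i hi i' hi' h
      simp only [Prod.mk.injEq] at h
      rcases lt_trichotomy i i' with h1 | h1 | h1
      · exact absurd h.1 (hsep i hi i' hi' (by omega))
      · exact h1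
      · exact absurd h.1.symm (hsep i' hi' i hi (by omega))
  rw [Finset.card_product, Finset.card_range, Finset.card_range] at h
  omega

theorem card_inj (S : Finset ℕ) (f : ℕ → ℕ) (k : ℕ) (hf : ∀ i ∈ S, f i < k)
    (hsep : ∀ i ∈ S, ∀ i' ∈ S, i < i' → f i ≠ f i') : S.card ≤ k := by
  have h : S.card ≤ (Finset.range k).card := by
    apply Finset.card_le_card_of_injOn f
    · intro i hi
      simp only [Finset.mem_coe, Finset.mem_range]
      exact hf i hi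
    · intro i hi i' hi' h
      rcases lt_trichotomy i i' with h1 | h1 | h1
      · exact absurd h (hsep i hi i' hi' h1)
      · exact h1
      · exact absurd h.symm (hsep i' hi' i hi h1)
  simpa using h

/-- the data given by a cut with few types -/
structure Dat (k N M : ℕ) (A : Set (ℕ × ℕ)) (l : ℕ × ℕ → ℕ) : Prop where
  lt : ∀ j i : ℕ, j ≤ N → i < M → l (j, i) < k
  ty : ∀ j i j' i' j'' i'' : ℕ, j ≤ N → i < M → j' ≤ N → i' < M → j'' ≤ N → i'' < M →
    (j, i) ∈ A → (j', i') ∈ A → (j'', i'') ∉ A → l (j, i) = l (j', i') →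
    (adj (j, i) (j'', i'') ↔ adj (j', i') (j'', i''))

theorem adj0 {m j i : ℕ} : adj (0, m) (j, i) ↔
    2 * m + 1 < 2 ^ j * (2 * i + 3) ∧ 2 ^ j * (2 * i + 1) < 2 * m + 3 := by
  unfold adj lo hi
  simp

theorem impure_le {k N M : ℕ} {A : Set (ℕ × ℕ)} {l : ℕ × ℕ → ℕ} (D : Dat k N M A l) (j : ℕ)
    (hjN : j ≤ N) (S : Finset ℕ)
    (hS : ∀ i ∈ S, i < M ∧ (∃ m < M, adj (0, m) (j, i) ∧ (0, m) ∈ A) ∧
      (∃ m < M, adj (0, m) (j, i) ∧ (0, m) ∉ A)) : S.card ≤ 4 * k := by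
  classical
  have far : ∀ i i' m, i + 2 ≤ i' → adj (0, m) (j, i) → adj (0, m) (j, i') → False := by
    intro i i' m hi h1 h2
    rw [adj0] at h1 h2
    have h3 : 2 ^ j * (2 * i + 5) ≤ 2 ^ j * (2 * i' + 1) := Nat.mul_le_mul_left _ (by omega)
    have h4 : 2 ^ j * (2 * i + 5) = 2 ^ j * (2 * i + 3) + 2 * 2 ^ j := by ring
    have h5 : 1 ≤ 2 ^ j := Nat.one_le_two_pow
    omega
  have h1 : (S.filter (fun i => (j, i) ∈ A)).card ≤ 2 * k := by
    apply card_sep _ (fun i => l (j, i))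
    · intro i hi
      rw [Finset.mem_filter] at hi
      exact D.lt j i hjN (hS i hi.1).1
    · intro i hi i' hi' hii' h
      rw [Finset.mem_filter] at hi hi'
      obtain ⟨hiM, -, m, hm, hm1, hm2⟩ := hS i hi.1
      have h3 := (D.ty j i j i' 0 m hjN hiM hjN (hS i' hi'.1).1 (Nat.zero_le _) hm hi.2 hi'.2 hm2
        h).1 (adj_comm.1 hm1)
      exact far i i' m hii' hm1 (adj_comm.1 h3)
  have h2 : (S.filter (fun i => ¬ (j, i) ∈ A)).card ≤ 2 * k := by
    have hch : ∀ i ∈ S, ∃ m < M, adj (0, m) (j, i) ∧ (0, m) ∈ A := fun i hi => (hS i hi).2.1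
    choose! μ hμ1 hμ2 hμ3 using hch
    apply card_sep _ (fun i => l (0, μ i))
    · intro i hi
      rw [Finset.mem_filter] at hi
      exact D.lt 0 _ (Nat.zero_le _) (hμ1 i hi.1)
    · intro i hi i' hi' hii' h
      rw [Finset.mem_filter] at hi hi'
      have h3 := (D.ty 0 (μ i) 0 (μ i') j i (Nat.zero_le _) (hμ1 i hi.1) (Nat.zero_le _)
        (hμ1 i' hi'.1) hjN (hS i hi.1).1 (hμ3 i hi.1) (hμ3 i' hi'.1) hi.2 h).1 (hμ2 i hi.1)
      exact far i i' (μ i') hii' h3 (hμ2 i' hi'.1)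
  have h3 := Finset.card_filter_add_card_filter_not (s := S) (fun i => (j, i) ∈ A)
  omega

theorem top_aux {k N C M : ℕ} (hN : 1 ≤ N) (hM : M = C * 2 ^ N) (hC : 12 * k + 5 ≤ C)
    (Q : ℕ → Prop) [DecidablePred Q] (hQ : M ≤ 3 * ((Finset.range M).filter Q).card)
    (himp : ∀ S : Finset ℕ, (∀ i ∈ S, i < C - 1 ∧ (∃ m < M, adj (0, m) (N, i) ∧ Q m) ∧
      (∃ m < M, adj (0, m) (N, i) ∧ ¬ Q m)) → S.card ≤ 4 * k) :
    ∃ i < C - 1, ∀ m < M, adj (0, m) (N, i) → Q m := by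
  classical
  by_contra hcon
  push Not at hcon
  set S := (Finset.range (C - 1)).filter (fun i => ∃ m < M, adj (0, m) (N, i) ∧ Q m) with hS
  have hS4 : S.card ≤ 4 * k := himp S (by
    intro i hi
    rw [hS, Finset.mem_filter, Finset.mem_range] at hi
    exact ⟨hi.1, hi.2, hcon i hi.1⟩)
  obtain ⟨P, rfl⟩ : ∃ P, N = P + 1 := ⟨N - 1, by omega⟩
  have hM2 : M = 2 * C * 2 ^ P := by rw [hM, pow_succ]; ring
  set T : Finset ℕ := ({0, 2 * C - 1, 2 * C} ∪ S.image (fun i => 2 * i + 1)) ∪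
    S.image (fun i => 2 * i + 2) with hT
  have hTc : T.card ≤ 8 * k + 3 := by
    have h1 := Finset.card_union_le ({0, 2 * C - 1, 2 * C} ∪ S.image (fun i => 2 * i + 1))
      (S.image (fun i => 2 * i + 2))
    have h2 := Finset.card_union_le ({0, 2 * C - 1, 2 * C} : Finset ℕ)
      (S.image (fun i => 2 * i + 1))
    have h3 := Finset.card_le_three (a := 0) (b := 2 * C - 1) (c := 2 * C)
    have h4 := Finset.card_image_le (s := S) (f := fun i => 2 * i + 1)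
    have h5 := Finset.card_image_le (s := S) (f := fun i => 2 * i + 2)
    rw [hT]
    omega
  have hmaps : ∀ m ∈ (Finset.range M).filter Q, (m + 1) / 2 ^ P ∈ T := by
    intro m hm
    rw [Finset.mem_filter, Finset.mem_range] at hm
    obtain ⟨hm1, hm2⟩ := hm
    have hpos : 0 < 2 ^ P := by positivity
    have hq1 : (m + 1) / 2 ^ P * 2 ^ P ≤ m + 1 := Nat.div_mul_le_self _ _
    have hq2 : m + 1 < ((m + 1) / 2 ^ P + 1) * 2 ^ P := by
      have := Nat.lt_div_mul_add (a := m + 1) hpos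
      rw [add_mul, one_mul]
      exact this
    generalize (m + 1) / 2 ^ P = q at hq1 hq2 ⊢
    have hqC : q ≤ 2 * C := by
      have h1 : q * 2 ^ P ≤ 2 * C * 2 ^ P := by omega
      exact Nat.le_of_mul_le_mul_right h1 hpos
    by_cases hq0 : q = 0
    · rw [hq0, hT]; simp
    by_cases hq3 : 2 * C - 1 ≤ q
    · have : q = 2 * C - 1 ∨ q = 2 * C := by omega
      rw [hT]
      rcases this with h | h
      · rw [h]; simp
      · rw [h]; simp
    have hi : (q - 1) / 2 < C - 1 := by omega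
    have hiS : (q - 1) / 2 ∈ S := by
      rw [hS, Finset.mem_filter, Finset.mem_range]
      refine ⟨hi, m, hm1, ?_, hm2⟩
      rw [adj0]
      constructor
      · have h1 : (q + 1) * 2 ^ P ≤ (2 * ((q - 1) / 2) + 3) * 2 ^ P :=
          Nat.mul_le_mul_right _ (by omega)
        have h2 : 2 ^ (P + 1) * (2 * ((q - 1) / 2) + 3) = 2 * ((2 * ((q - 1) / 2) + 3) * 2 ^ P) := by
          rw [pow_succ]; ring
        rw [h2]
        omega
      · have h1 : (2 * ((q - 1) / 2) + 1) * 2 ^ P ≤ q * 2 ^ P :=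
          Nat.mul_le_mul_right _ (by omega)
        have h2 : 2 ^ (P + 1) * (2 * ((q - 1) / 2) + 1) = 2 * ((2 * ((q - 1) / 2) + 1) * 2 ^ P) := by
          rw [pow_succ]; ring
        rw [h2]
        omega
    have : q = 2 * ((q - 1) / 2) + 1 ∨ q = 2 * ((q - 1) / 2) + 2 := by omega
    rw [hT, Finset.mem_union, Finset.mem_union]
    rcases this with h | h
    · left; right
      exact Finset.mem_image.2 ⟨_, hiS, h.symm⟩
    · right
      exact Finset.mem_image.2 ⟨_, hiS, h.symm⟩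
  have hfib : ∀ q ∈ T, (((Finset.range M).filter Q).filter
      (fun m => (m + 1) / 2 ^ P = q)).card ≤ 2 ^ P := by
    intro q _
    have hpos : 0 < 2 ^ P := by positivity
    have hsub : ((Finset.range M).filter Q).filter (fun m => (m + 1) / 2 ^ P = q) ⊆
        Finset.Ico (q * 2 ^ P - 1) (q * 2 ^ P - 1 + 2 ^ P) := by
      intro m hm
      rw [Finset.mem_filter] at hm
      have hq1 : (m + 1) / 2 ^ P * 2 ^ P ≤ m + 1 := Nat.div_mul_le_self _ _
      have hq2 := Nat.lt_div_mul_add (a := m + 1) hpos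
      rw [hm.2] at hq1 hq2
      rw [Finset.mem_Ico]
      omega
    have := Finset.card_le_card hsub
    rw [Nat.card_Ico] at this
    omega
  have h1 := Finset.card_le_mul_card_image_of_maps_to hmaps (2 ^ P) hfib
  have h2 : 2 ^ P * T.card ≤ 2 ^ P * (8 * k + 3) := Nat.mul_le_mul_left _ hTc
  have h3 : 2 ^ P * (24 * k + 10) ≤ 2 ^ P * (2 * C) := Nat.mul_le_mul_left _ (by omega)
  have h4 : M = 2 ^ P * (2 * C) := by rw [hM2]; ring
  have h5 : 2 ^ P * (24 * k + 10) = 3 * (2 ^ P * (8 * k + 3)) + 2 ^ P := by ring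
  have h6 : 0 < 2 ^ P := by positivity
  omega

theorem close (R B : ℕ → Prop) (K r0 b0 : ℕ) (hr : R r0) (hb : B b0)
    (himp : ∀ S : Finset ℕ, (∀ i ∈ S, min r0 b0 ≤ i ∧ i ≤ max r0 b0 ∧ ¬ R i ∧ ¬ B i) →
      S.card ≤ K) :
    ∃ r b, R r ∧ B b ∧ min r0 b0 ≤ min r b ∧ max r b ≤ max r0 b0 ∧
      max r b ≤ min r b + K + 1 := by
  classical
  let P : ℕ → Prop := fun d => ∃ r b, R r ∧ B b ∧ min r0 b0 ≤ min r b ∧ max r b ≤ max r0 b0 ∧
      max r b ≤ min r b + d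
  have hex : ∃ d, P d := ⟨max r0 b0, r0, b0, hr, hb, le_rfl, le_rfl, by omega⟩
  obtain ⟨r, b, h1, h2, h3, h4, h5⟩ := Nat.find_spec hex
  have hmin : ∀ d, P d → Nat.find hex ≤ d := fun d hd => Nat.find_min' hex hd
  refine ⟨r, b, h1, h2, h3, h4, ?_⟩
  by_contra hcon
  push Not at hcon
  have hd : Nat.find hex = max r b - min r b := by
    have := hmin (max r b - min r b) ⟨r, b, h1, h2, h3, h4, by omega⟩
    omega
  have hS := himp (Finset.Ioo (min r b) (max r b)) (by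
    intro i hi
    rw [Finset.mem_Ioo] at hi
    refine ⟨by omega, by omega, ?_, ?_⟩
    · intro hRi
      have := hmin (max i b - min i b) ⟨i, b, hRi, h2, by omega, by omega, by omega⟩
      omega
    · intro hBi
      have := hmin (max r i - min r i) ⟨r, i, h1, hBi, by omega, by omega, by omega⟩
      omega)
  rw [Nat.card_Ioo] at hS
  omega

/-- a junction on level `j` -/
structure St (N C M K : ℕ) (A : Set (ℕ × ℕ)) (j : ℕ) (s : ℕ × ℕ) : Prop where
  red : ∀ m < M, adj (0, m) (j, s.1) → (0, m) ∈ A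
  blue : ∀ m < M, adj (0, m) (j, s.2) → (0, m) ∉ A
  near : max s.1 s.2 ≤ min s.1 s.2 + K + 1
  lo_ge : 2 ^ N ≤ lo (j, min s.1 s.2)
  hi_le : hi (j, max s.1 s.2) ≤ 2 ^ N * (2 * C - 1)

theorem lt_of_hi {N C M j i : ℕ} (hC : 1 ≤ C) (hM : M = C * 2 ^ N)
    (h : hi (j, i) ≤ 2 ^ N * (2 * C - 1)) : i < M := by
  unfold hi at h
  simp only at h
  have h1 : 1 ≤ 2 ^ j := Nat.one_le_two_pow
  have h2 : 1 * (2 * i + 3) ≤ 2 ^ j * (2 * i + 3) := Nat.mul_le_mul_right _ h1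
  have h3 : 2 ^ N * (2 * C - 1) ≤ 2 ^ N * (2 * C) := Nat.mul_le_mul_left _ (by omega)
  have h4 : 2 ^ N * (2 * C) = 2 * M := by rw [hM]; ring
  omega

theorem step {k N C M : ℕ} {A : Set (ℕ × ℕ)} {l : ℕ × ℕ → ℕ} (D : Dat k N M A l)
    (hC : 1 ≤ C) (hM : M = C * 2 ^ N) (j : ℕ) (hjN : j < N) (s : ℕ × ℕ)
    (hs : St N C M (4 * k) A (j + 1) s) :
    ∃ t, St N C M (4 * k) A j t ∧ (lo (j + 1, min s.1 s.2) ≤ lo (j, min t.1 t.2) ∧
      hi (j, max t.1 t.2) ≤ hi (j + 1, max s.1 s.2)) := by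
  obtain ⟨r0, b0⟩ := s
  have hdown : ∀ i m, adj (0, m) (j, 2 * i + 1) → adj (0, m) (j + 1, i) := by
    intro i m h
    rw [adj0] at h ⊢
    rw [pow_succ]
    have e1 : 2 ^ j * 2 * (2 * i + 3) = 2 ^ j * (2 * (2 * i + 1) + 3) + 2 ^ j := by ring
    have e2 : 2 ^ j * (2 * (2 * i + 1) + 1) = 2 ^ j * 2 * (2 * i + 1) + 2 ^ j := by ring
    have e3 : 1 ≤ 2 ^ j := Nat.one_le_two_pow
    omega
  have hlo : ∀ t1 i, 2 * i + 1 ≤ t1 → lo (j + 1, i) ≤ lo (j, t1) := by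
    intro t1 i h
    unfold lo
    simp only
    calc 2 ^ (j + 1) * (2 * i + 1) = 2 ^ j * (2 * (2 * i + 1)) := by ring
      _ ≤ 2 ^ j * (2 * t1 + 1) := Nat.mul_le_mul_left _ (by omega)
  have hhi : ∀ t1 i, t1 ≤ 2 * i + 1 → hi (j, t1) ≤ hi (j + 1, i) := by
    intro t1 i h
    unfold hi
    simp only
    calc 2 ^ j * (2 * t1 + 3) ≤ 2 ^ j * (2 * (2 * i + 3)) := Nat.mul_le_mul_left _ (by omega)
      _ = 2 ^ (j + 1) * (2 * i + 3) := by ring
  obtain ⟨r, b, h1, h2, h3, h4, h5⟩ := close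
    (fun i => ∀ m < M, adj (0, m) (j, i) → (0, m) ∈ A)
    (fun i => ∀ m < M, adj (0, m) (j, i) → (0, m) ∉ A) (4 * k) (2 * r0 + 1) (2 * b0 + 1)
    (fun m hm h => hs.red m hm (hdown _ _ h)) (fun m hm h => hs.blue m hm (hdown _ _ h)) (by
      intro S hS
      apply impure_le D j hjN.le S
      intro i hi
      obtain ⟨a1, a2, a3, a4⟩ := hS i hi
      push Not at a3 a4
      refine ⟨lt_of_hi (j := j) hC hM (le_trans (hhi i (max r0 b0) (by omega)) hs.hi_le), ?_, ?_⟩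
      · obtain ⟨m, x1, x2, x3⟩ := a4
        exact ⟨m, x1, x2, x3⟩
      · obtain ⟨m, x1, x2, x3⟩ := a3
        exact ⟨m, x1, x2, x3⟩)
  have hlo' : lo (j + 1, min r0 b0) ≤ lo (j, min r b) := hlo _ _ (by omega)
  have hhi' : hi (j, max r b) ≤ hi (j + 1, max r0 b0) := hhi _ _ (by omega)
  exact ⟨(r, b), ⟨h1, h2, h5, le_trans hs.lo_ge hlo', le_trans hhi' hs.hi_le⟩, hlo', hhi'⟩

theorem seq {α : Type} [Inhabited α] (N : ℕ) (hN : 1 ≤ N) (P : ℕ → α → Prop) (Q : ℕ → α → α → Prop)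
    (h0 : ∃ x, P N x) (hstep : ∀ j, j < N → ∀ x, P (j + 1) x → ∃ y, P j y ∧ Q j x y) :
    ∃ s : ℕ → α, (∀ j, 1 ≤ j → j ≤ N → P j (s j)) ∧
      ∀ j, 1 ≤ j → j < N → Q j (s (j + 1)) (s j) := by
  have main : ∀ d, d < N → ∃ s : ℕ → α, (∀ j, N - d ≤ j → j ≤ N → P j (s j)) ∧
      ∀ j, N - d ≤ j → j < N → Q j (s (j + 1)) (s j) := by
    intro d
    induction d with
    | zero =>
      intro _
      obtain ⟨x, hx⟩ := h0
      refine ⟨fun _ => x, ?_, ?_⟩
      · intro j h1 h2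
        have : j = N := by omega
        rw [this]; exact hx
      · intro j h1 h2
        omega
    | succ d ih =>
      intro hd
      obtain ⟨s, hs1, hs2⟩ := ih (by omega)
      obtain ⟨e, he⟩ : ∃ e, N - d = e + 1 := ⟨N - d - 1, by omega⟩
      have hP := hs1 (e + 1) (by omega) (by omega)
      obtain ⟨y, hy1, hy2⟩ := hstep e (by omega) _ hP
      refine ⟨Function.update s e y, ?_, ?_⟩
      · intro j h1 h2
        by_cases hj : j = e
        · subst hj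
          rw [Function.update_self]; exact hy1
        · rw [Function.update_of_ne hj]
          exact hs1 j (by omega) h2
      · intro j h1 h2
        by_cases hj : j = e
        · subst hj
          rw [Function.update_self, Function.update_of_ne (by omega)]
          exact hy2
        · rw [Function.update_of_ne hj, Function.update_of_ne (by omega)]
          exact hs2 j (by omega) h2
  obtain ⟨s, h1, h2⟩ := main (N - 1) (by omega)
  exact ⟨s, fun j a b => h1 j (by omega) b, fun j a b => h2 j (by omega) b⟩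

theorem contain {x y a : ℕ} (hx : 2 ^ a ≤ x) :
    (∃ i, lo (a, i) ≤ x ∧ y ≤ hi (a, i)) ∨
      ∃ i, x < 2 ^ a * (2 * i + 1) ∧ 2 ^ a * (2 * i + 1) < y := by
  have hpos : 0 < 2 ^ a := by positivity
  have h1 : x / 2 ^ a * 2 ^ a ≤ x := Nat.div_mul_le_self _ _
  have h2 := Nat.lt_div_mul_add (a := x) hpos
  have h3 : 1 ≤ x / 2 ^ a := (Nat.one_le_div_iff hpos).2 hx
  generalize x / 2 ^ a = q at h1 h2 h3
  have h4 : 2 ^ a * (2 * ((q - 1) / 2) + 1) ≤ q * 2 ^ a := by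
    rw [mul_comm]; exact Nat.mul_le_mul_right _ (by omega)
  have h5 : q * 2 ^ a + 2 ^ a ≤ 2 ^ a * (2 * ((q - 1) / 2) + 3) := by
    have : (q + 1) * 2 ^ a ≤ (2 * ((q - 1) / 2) + 3) * 2 ^ a := Nat.mul_le_mul_right _ (by omega)
    calc q * 2 ^ a + 2 ^ a = (q + 1) * 2 ^ a := by ring
      _ ≤ _ := this
      _ = _ := by ring
  by_cases h : y ≤ hi (a, (q - 1) / 2)
  · left
    exact ⟨_, by unfold lo; simp only; omega, h⟩
  · right
    refine ⟨(q - 1) / 2 + 1, ?_, ?_⟩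
    · have e : 2 ^ a * (2 * ((q - 1) / 2 + 1) + 1) = 2 ^ a * (2 * ((q - 1) / 2) + 3) := by ring
      rw [e]; omega
    · have e : 2 ^ a * (2 * ((q - 1) / 2 + 1) + 1) = 2 ^ a * (2 * ((q - 1) / 2) + 3) := by ring
      rw [e]
      unfold hi at h
      simp only at h
      omega

theorem contain2 {x y a : ℕ} (hx : 2 ^ (a + 1) ≤ x) (hy : y ≤ x + 2 ^ a) :
    ∃ a' i, a ≤ a' ∧ a' ≤ a + 1 ∧ lo (a', i) ≤ x ∧ y ≤ hi (a', i) := by
  have hx' : 2 ^ a ≤ x := le_trans (Nat.pow_le_pow_right (by norm_num) (by omega)) hx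
  rcases contain (x := x) (y := y) (a := a) hx' with ⟨i, h1, h2⟩ | ⟨i, h1, h2⟩
  · exact ⟨a, i, le_rfl, by omega, h1, h2⟩
  rcases contain (x := x) (y := y) (a := a + 1) hx with ⟨i', h3, h4⟩ | ⟨i', h3, h4⟩
  · exact ⟨a + 1, i', by omega, le_rfl, h3, h4⟩
  exfalso
  have e : 2 ^ (a + 1) * (2 * i' + 1) = 2 ^ a * (2 * (2 * i' + 1)) := by ring
  rw [e] at h3 h4
  rcases lt_or_ge (2 * i + 1) (2 * (2 * i' + 1)) with h | h
  · have h5 : 2 ^ a * (2 * i + 1 + 1) ≤ 2 ^ a * (2 * (2 * i' + 1)) := Nat.mul_le_mul_left _ h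
    have h6 : 2 ^ a * (2 * i + 1 + 1) = 2 ^ a * (2 * i + 1) + 2 ^ a := by ring
    omega
  · have h5 : 2 ^ a * (2 * (2 * i' + 1) + 1) ≤ 2 ^ a * (2 * i + 1) :=
      Nat.mul_le_mul_left _ (by omega)
    have h6 : 2 ^ a * (2 * (2 * i' + 1) + 1) = 2 ^ a * (2 * (2 * i' + 1)) + 2 ^ a := by ring
    omega

theorem inner (β t a f : ℕ) (ha : 1 ≤ a) (h : a + 2 ≤ β) :
    ∃ m, lo (β, t) ≤ 2 * m + 1 ∧ 2 * m + 3 ≤ hi (β, t) ∧ ¬ adj (0, m) (a, f) := by
  obtain ⟨e, rfl⟩ := Nat.exists_eq_add_of_le h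
  obtain ⟨a', rfl⟩ := Nat.exists_eq_add_of_le ha
  by_contra hcon
  push Not at hcon
  set P := 2 ^ a' with hP
  set E := 2 ^ e with hE
  have hPpos : 1 ≤ P := Nat.one_le_two_pow
  have hEpos : 1 ≤ E := Nat.one_le_two_pow
  have e1 : lo (1 + a' + 2 + e, t) = 2 * (4 * (P * E) * (2 * t + 1)) := by
    unfold lo; simp only [pow_add, hP, hE]; ring
  have e2 : hi (1 + a' + 2 + e, t) = 2 * (4 * (P * E) * (2 * t + 3)) := by
    unfold hi; simp only [pow_add, hP, hE]; ring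
  have e3 : 4 * (P * E) * (2 * t + 3) = 4 * (P * E) * (2 * t + 1) + 8 * (P * E) := by ring
  have hPE : P ≤ P * E := Nat.le_mul_of_pos_right _ hEpos
  have h1 := hcon (4 * (P * E) * (2 * t + 1)) (by rw [e1]; omega) (by rw [e2]; omega)
  have h2 := hcon (4 * (P * E) * (2 * t + 3) - 2) (by rw [e1]; omega) (by rw [e2]; omega)
  rw [adj0] at h1 h2
  have e4 : 2 ^ (1 + a') * (2 * f + 3) = 2 ^ (1 + a') * (2 * f + 1) + 4 * P := by
    simp only [pow_add, hP]; ring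
  omega

theorem core {k N C M g : ℕ} {A : Set (ℕ × ℕ)} {l : ℕ × ℕ → ℕ} (D : Dat k N M A l)
    (hC : 12 * k + 5 ≤ C) (hM : M = C * 2 ^ N) (hg : 2 * (4 * k + 2) ≤ 2 ^ g)
    (hN : N = 1 + (2 * k + 1) * (g + 3)) [DecidablePred fun m => (0, m) ∈ A]
    (hR : M ≤ 3 * ((Finset.range M).filter (fun m => (0, m) ∈ A)).card)
    (hB : M ≤ 3 * ((Finset.range M).filter (fun m => ¬ (0, m) ∈ A)).card) : False := by
  classical
  have hN1 : 1 ≤ N := by omega
  -- the junctions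
  obtain ⟨rN, hrN, hrN'⟩ := top_aux (k := k) hN1 hM hC (fun m => (0, m) ∈ A) hR (by
    intro S hS
    apply impure_le D N le_rfl S
    intro i hi
    obtain ⟨h1, h2, h3⟩ := hS i hi
    refine ⟨?_, h2, h3⟩
    have h4 : C - 1 < C * 2 ^ N := by
      have : C * 1 ≤ C * 2 ^ N := Nat.mul_le_mul_left _ Nat.one_le_two_pow
      omega
    omega)
  obtain ⟨bN, hbN, hbN'⟩ := top_aux (k := k) hN1 hM hC (fun m => ¬ (0, m) ∈ A) hB (by
    intro S hS
    apply impure_le D N le_rfl S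
    intro i hi
    obtain ⟨h1, h2, h3⟩ := hS i hi
    refine ⟨?_, ?_, h2⟩
    · have h4 : C - 1 < C * 2 ^ N := by
        have : C * 1 ≤ C * 2 ^ N := Nat.mul_le_mul_left _ Nat.one_le_two_pow
        omega
      omega
    · obtain ⟨m, x1, x2, x3⟩ := h3
      exact ⟨m, x1, x2, not_not.1 x3⟩)
  have hCle : C - 1 ≤ M := by
    have : C * 1 ≤ C * 2 ^ N := Nat.mul_le_mul_left _ Nat.one_le_two_pow
    omega
  obtain ⟨rN1, bN1, h1, h2, h3, h4, h5⟩ := close
    (fun i => ∀ m < M, adj (0, m) (N, i) → (0, m) ∈ A)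
    (fun i => ∀ m < M, adj (0, m) (N, i) → (0, m) ∉ A) (4 * k) rN bN hrN' hbN' (by
      intro S hS
      apply impure_le D N le_rfl S
      intro i hi
      obtain ⟨a1, a2, a3, a4⟩ := hS i hi
      push Not at a3 a4
      refine ⟨by omega, ?_, ?_⟩
      · obtain ⟨m, x1, x2, x3⟩ := a4
        exact ⟨m, x1, x2, x3⟩
      · obtain ⟨m, x1, x2, x3⟩ := a3
        exact ⟨m, x1, x2, x3⟩)
  have hStN : St N C M (4 * k) A N (rN1, bN1) := by
    refine ⟨h1, h2, h5, ?_, ?_⟩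
    · unfold lo
      simp only
      exact Nat.le_mul_of_pos_right _ (by omega)
    · unfold hi
      simp only
      exact Nat.mul_le_mul_left _ (by omega)
  obtain ⟨s, hs1, hs2⟩ := seq N hN1 (St N C M (4 * k) A)
    (fun j s t => lo (j + 1, min s.1 s.2) ≤ lo (j, min t.1 t.2) ∧
      hi (j, max t.1 t.2) ≤ hi (j + 1, max s.1 s.2)) ⟨_, hStN⟩
    (fun j hj x hx => step D (by omega) hM j hj x hx)
  -- monotonicity
  have mono : ∀ d j, 1 ≤ j → j + d ≤ N →
      lo (j + d, min (s (j + d)).1 (s (j + d)).2) ≤ lo (j, min (s j).1 (s j).2) ∧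
      hi (j, max (s j).1 (s j).2) ≤ hi (j + d, max (s (j + d)).1 (s (j + d)).2) := by
    intro d
    induction d with
    | zero => intro j _ _; exact ⟨le_rfl, le_rfl⟩
    | succ d ih =>
      intro j hj hjd
      obtain ⟨a1, a2⟩ := ih j hj (by omega)
      obtain ⟨a3, a4⟩ := hs2 (j + d) (by omega) (by omega)
      exact ⟨le_trans a3 a1, le_trans a2 a4⟩
  -- levels
  set b : ℕ → ℕ := fun i => 1 + i * (g + 3) with hb
  have hb1 : ∀ i, 1 ≤ b i := fun i => by simp only [hb]; omega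
  have hbs : ∀ i, b (i + 1) = b i + (g + 3) := fun i => by simp only [hb]; ring
  have hbN : ∀ i, i ≤ 2 * k + 1 → b i ≤ N := by
    intro i hi
    have : i * (g + 3) ≤ (2 * k + 1) * (g + 3) := Nat.mul_le_mul_right _ hi
    simp only [hb]
    omega
  have hbmono : ∀ i i', i ≤ i' → b i ≤ b i' := by
    intro i i' h
    have : i * (g + 3) ≤ i' * (g + 3) := Nat.mul_le_mul_right _ h
    simp only [hb]
    omega
  -- containing cells
  have hF : ∀ i, i < 2 * k + 1 → ∃ a f, b i + g ≤ a ∧ a ≤ b i + g + 1 ∧ f < M ∧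
      lo (a, f) ≤ lo (b i, min (s (b i)).1 (s (b i)).2) ∧
      hi (b i, max (s (b i)).1 (s (b i)).2) ≤ hi (a, f) := by
    intro i hi0
    have hbi := hbN (i + 1) (by omega)
    rw [hbs] at hbi
    have hst := hs1 (b i) (hb1 i) (by omega)
    have hlen : hi (b i, max (s (b i)).1 (s (b i)).2) ≤
        lo (b i, min (s (b i)).1 (s (b i)).2) + 2 ^ (b i + g) := by
      have hnear := hst.near
      unfold lo hi
      simp only
      have e1 : 2 ^ b i * (2 * max (s (b i)).1 (s (b i)).2 + 3) ≤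
          2 ^ b i * (2 * min (s (b i)).1 (s (b i)).2 + 1 + 2 * (4 * k + 2)) :=
        Nat.mul_le_mul_left _ (by omega)
      have e2 : 2 ^ b i * (2 * min (s (b i)).1 (s (b i)).2 + 1 + 2 * (4 * k + 2)) =
          2 ^ b i * (2 * min (s (b i)).1 (s (b i)).2 + 1) + 2 ^ b i * (2 * (4 * k + 2)) := by ring
      have e3 : 2 ^ b i * (2 * (4 * k + 2)) ≤ 2 ^ b i * 2 ^ g := Nat.mul_le_mul_left _ hg
      have e4 : 2 ^ (b i + g) = 2 ^ b i * 2 ^ g := pow_add _ _ _
      rw [e4]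
      omega
    have hlo : 2 ^ (b i + g + 1) ≤ lo (b i, min (s (b i)).1 (s (b i)).2) :=
      le_trans (Nat.pow_le_pow_right (by norm_num) (by omega)) hst.lo_ge
    obtain ⟨a', f, x1, x2, x3, x4⟩ := contain2 hlo hlen
    refine ⟨a', f, x1, x2, ?_, x3, x4⟩
    -- f < M
    have y1 : lo (a', f) < 2 * M := by
      refine lt_of_le_of_lt x3 (lt_of_lt_of_le (lo_lt_hi _) ?_)
      have y2 : hi (b i, min (s (b i)).1 (s (b i)).2) ≤ hi (b i, max (s (b i)).1 (s (b i)).2) := by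
        unfold hi
        simp only
        exact Nat.mul_le_mul_left _ (by omega)
      refine le_trans y2 (le_trans hst.hi_le ?_)
      have h3 : 2 ^ N * (2 * C - 1) ≤ 2 ^ N * (2 * C) := Nat.mul_le_mul_left _ (by omega)
      have h4 : 2 ^ N * (2 * C) = 2 * M := by rw [hM]; ring
      omega
    unfold lo at y1
    simp only at y1
    have y3 : 1 * (2 * f + 1) ≤ 2 ^ a' * (2 * f + 1) :=
      Nat.mul_le_mul_right _ Nat.one_le_two_pow
    omega
  choose! a f ha1 ha2 hfM hlo hhi using hF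
  -- special level 0 vertices
  have hspec : ∀ i, i < 2 * k + 1 → ∀ t, min (s (b (i + 1))).1 (s (b (i + 1))).2 ≤ t →
      t ≤ max (s (b (i + 1))).1 (s (b (i + 1))).2 → ∃ m, m < M ∧ adj (0, m) (b (i + 1), t) ∧
      ¬ adj (0, m) (a i, f i) ∧ ∀ i', i < i' → i' < 2 * k + 1 → adj (0, m) (a i', f i') := by
    intro i hi0 t ht1 ht2
    have hbi := hbN (i + 1) (by omega)
    have hst := hs1 (b (i + 1)) (hb1 _) hbi
    have hx1 := ha1 i hi0
    have hx2 := ha2 i hi0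
    obtain ⟨m, hm1, hm2, hm3⟩ := inner (b (i + 1)) t (a i) (f i) (by have := hb1 i; omega)
      (by rw [hbs]; omega)
    have hlt : lo (b (i + 1), min (s (b (i + 1))).1 (s (b (i + 1))).2) ≤ lo (b (i + 1), t) := by
      unfold lo
      simp only
      exact Nat.mul_le_mul_left _ (by omega)
    have hht : hi (b (i + 1), t) ≤ hi (b (i + 1), max (s (b (i + 1))).1 (s (b (i + 1))).2) := by
      unfold hi
      simp only
      exact Nat.mul_le_mul_left _ (by omega)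
    refine ⟨m, ?_, ?_, hm3, ?_⟩
    · have h3 : 2 ^ N * (2 * C - 1) ≤ 2 ^ N * (2 * C) := Nat.mul_le_mul_left _ (by omega)
      have h4 : 2 ^ N * (2 * C) = 2 * M := by rw [hM]; ring
      have := hst.hi_le
      omega
    · rw [adj0]
      unfold lo at hm1
      unfold hi at hm2
      simp only at hm1 hm2
      omega
    · intro i' hii' hi'
      rw [adj0]
      have hlo' := hlo i' hi'
      have hhi' := hhi i' hi'
      obtain ⟨d, hd⟩ := Nat.exists_eq_add_of_le (hbmono (i + 1) i' hii')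
      have hm := mono d (b (i + 1)) (hb1 _) (by
        rw [← hd]; exact hbN i' (by omega))
      rw [← hd] at hm
      have q1 : lo (a i', f i') ≤ 2 * m + 1 := by
        have := hm.1
        omega
      have q2 : 2 * m + 3 ≤ hi (a i', f i') := by
        have := hm.2
        omega
      unfold lo at q1
      unfold hi at q2
      simp only at q1 q2
      omega
  have hrho : ∀ i, i < 2 * k + 1 → ∃ m, m < M ∧ (0, m) ∈ A ∧ ¬ adj (0, m) (a i, f i) ∧
      ∀ i', i < i' → i' < 2 * k + 1 → adj (0, m) (a i', f i') := by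
    intro i hi
    have hst := hs1 (b (i + 1)) (hb1 _) (hbN (i + 1) (by omega))
    obtain ⟨m, y1, y2, y3, y4⟩ := hspec i hi (s (b (i + 1))).1 (by omega) (by omega)
    exact ⟨m, y1, hst.red m y1 y2, y3, y4⟩
  have hbeta : ∀ i, i < 2 * k + 1 → ∃ m, m < M ∧ (0, m) ∉ A ∧ ¬ adj (0, m) (a i, f i) ∧
      ∀ i', i < i' → i' < 2 * k + 1 → adj (0, m) (a i', f i') := by
    intro i hi
    have hst := hs1 (b (i + 1)) (hb1 _) (hbN (i + 1) (by omega))
    obtain ⟨m, y1, y2, y3, y4⟩ := hspec i hi (s (b (i + 1))).2 (by omega) (by omega)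
    exact ⟨m, y1, hst.blue m y1 y2, y3, y4⟩
  choose! ρ hρ1 hρ2 hρ3 hρ4 using hrho
  choose! β hβ1 hβ2 hβ3 hβ4 using hbeta
  have haN : ∀ i, i < 2 * k + 1 → a i ≤ N := by
    intro i hi
    have hx2 := ha2 i hi
    have hbi := hbN (i + 1) (by omega)
    rw [hbs] at hbi
    omega
  have c1 : ((Finset.range (2 * k + 1)).filter (fun i => (a i, f i) ∈ A)).card ≤ k := by
    apply card_inj _ (fun i => l (a i, f i))
    · intro i hi
      rw [Finset.mem_filter, Finset.mem_range] at hi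
      exact D.lt _ _ (haN i hi.1) (hfM i hi.1)
    · intro i hi i' hi' hii' h
      rw [Finset.mem_filter, Finset.mem_range] at hi hi'
      have := (D.ty _ _ _ _ 0 (β i) (haN i hi.1) (hfM i hi.1) (haN i' hi'.1) (hfM i' hi'.1)
        (Nat.zero_le _) (hβ1 i hi.1) hi.2 hi'.2 (hβ2 i hi.1) h).2
        (adj_comm.1 (hβ4 i hi.1 i' hii' hi'.1))
      exact hβ3 i hi.1 (adj_comm.1 this)
  have c2 : ((Finset.range (2 * k + 1)).filter (fun i => ¬ (a i, f i) ∈ A)).card ≤ k := by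
    apply card_inj _ (fun i => l (0, ρ i))
    · intro i hi
      rw [Finset.mem_filter, Finset.mem_range] at hi
      exact D.lt _ _ (Nat.zero_le _) (hρ1 i hi.1)
    · intro i hi i' hi' hii' h
      rw [Finset.mem_filter, Finset.mem_range] at hi hi'
      have := (D.ty 0 (ρ i) 0 (ρ i') (a i') (f i') (Nat.zero_le _) (hρ1 i hi.1) (Nat.zero_le _)
        (hρ1 i' hi'.1) (haN i' hi'.1) (hfM i' hi'.1) (hρ2 i hi.1) (hρ2 i' hi'.1) hi'.2 h).1
        (hρ4 i hi.1 i' hii' hi'.1)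
      exact hρ3 i' hi'.1 this
  have c3 := Finset.card_filter_add_card_filter_not (s := Finset.range (2 * k + 1))
    (fun i => (a i, f i) ∈ A)
  rw [Finset.card_range] at c3
  omega

/-! ### the graph -/

/-- vertices -/
def Vx (N M : ℕ) : Type := {p : ℕ × ℕ // p.1 ≤ N ∧ p.2 < M}

instance (N M : ℕ) : Finite (Vx N M) := by
  have h : ({p : ℕ × ℕ | p.1 ≤ N ∧ p.2 < M} : Set (ℕ × ℕ)).Finite := by
    apply ((Set.finite_Iic N).prod (Set.finite_Iio M)).subset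
    rintro ⟨a, b⟩ h
    exact h
  exact h.to_subtype

/-- the multi-scale graph -/
def MG (N M : ℕ) : SimpleGraph (Vx N M) where
  Adj u v := u ≠ v ∧ adj u.1 v.1
  symm := ⟨fun _ _ h => ⟨h.1.symm, adj_comm.1 h.2⟩⟩
  loopless := ⟨fun _ h => h.1 rfl⟩

theorem MG_adj {N M : ℕ} {u v : Vx N M} : (MG N M).Adj u v ↔ u ≠ v ∧ adj u.1 v.1 := Iff.rfl

theorem MG_interval (N M : ℕ) : IsIntervalGraph (MG N M) := by
  apply isIntervalGraph_of_int (MG N M) (fun v => (lo v.1 : ℤ)) (fun v => (hi v.1 : ℤ) - 1)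
  · intro v
    have := lo_lt_hi v.1
    omega
  · intro u v huv
    rw [MG_adj]
    unfold adj
    constructor
    · rintro ⟨_, h1, h2⟩
      constructor <;> omega
    · rintro ⟨h1, h2⟩
      exact ⟨huv, by omega, by omega⟩

theorem MG_noC22 (N M : ℕ) : NoC22 (MG N M) := by
  intro p1 p2 q1 q2 a b hp hq hp12 hq12 h11 h12 h21 h22 hap1 hap2 haq1 haq2 hbq1 hbq2 hbp1 hbp2
    hab hnab
  have hlev : ∀ u v : Vx N M, (MG N M).Adj u v → u.1.1 ≠ v.1.1 := by
    intro u v h he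
    exact h.1 (Subtype.ext (adj_level h.2 he))
  have e11 := hlev _ _ h11
  have e12 := hlev _ _ h12
  have e21 := hlev _ _ h21
  have e22 := hlev _ _ h22
  have hval : ∀ u v : Vx N M, u ≠ v → u.1 ≠ v.1 := fun u v h h' => h (Subtype.ext h')
  have nadj : ∀ u v : Vx N M, u ≠ v → ¬ (MG N M).Adj u v → ¬ adj u.1 v.1 :=
    fun u v h h' h'' => h' ⟨h, h''⟩
  have naq1 : a ≠ q1 := by rintro rfl; exact haq2 hq12
  have naq2 : a ≠ q2 := by rintro rfl; exact haq1 hq12.symm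
  have nbp1 : b ≠ p1 := by rintro rfl; exact hbp2 hp12
  have nbp2 : b ≠ p2 := by rintro rfl; exact hbp1 hp12.symm
  have cases4 : (p1.1.1 < q1.1.1 ∧ p1.1.1 < q2.1.1) ∨ (p2.1.1 < q1.1.1 ∧ p2.1.1 < q2.1.1) ∨
      (q1.1.1 < p1.1.1 ∧ q1.1.1 < p2.1.1) ∨ (q2.1.1 < p1.1.1 ∧ q2.1.1 < p2.1.1) := by omega
  rcases cases4 with ⟨x1, x2⟩ | ⟨x1, x2⟩ | ⟨x1, x2⟩ | ⟨x1, x2⟩
  · exact key x1 x2 h11.2 h12.2 hap1.2 (nadj _ _ naq1 haq1) (nadj _ _ naq2 haq2) hq12.2
      (hval _ _ hq)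
  · exact key x1 x2 h21.2 h22.2 hap2.2 (nadj _ _ naq1 haq1) (nadj _ _ naq2 haq2) hq12.2
      (hval _ _ hq)
  · exact key x1 x2 (adj_comm.1 h11.2) (adj_comm.1 h21.2) hbq1.2 (nadj _ _ nbp1 hbp1)
      (nadj _ _ nbp2 hbp2) hp12.2 (hval _ _ hp)
  · exact key x1 x2 (adj_comm.1 h12.2) (adj_comm.1 h22.2) hbq2.2 (nadj _ _ nbp1 hbp1)
      (nadj _ _ nbp2 hbp2) hp12.2 (hval _ _ hp)

theorem MG_not_cw (k : ℕ) : ∃ N M, 1 ≤ M ∧ ¬ CwLE (MG N M) k := by
  classical
  set g := 8 * k + 4 with hg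
  set N := 1 + (2 * k + 1) * (g + 3) with hN
  set C := 12 * k + 5 with hC
  set M := C * 2 ^ N with hM
  have hM5 : 5 ≤ M := by
    have : 5 * 1 ≤ C * 2 ^ N := Nat.mul_le_mul (by omega) Nat.one_le_two_pow
    omega
  refine ⟨N, M, by omega, fun hcw => ?_⟩
  let W : Set (Vx N M) := {v | v.1.1 = 0}
  let e : Fin M → Vx N M := fun m => ⟨(0, m.1), Nat.zero_le _, m.2⟩
  have he : Function.Injective e := by
    intro x y h
    have := congrArg (fun v : Vx N M => v.1.2) h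
    exact Fin.ext this
  have hW : W = e '' Set.univ := by
    ext ⟨⟨x, y⟩, hx, hy⟩
    simp only [W, Set.mem_ofPred_eq, Set.image_univ, Set.mem_range]
    constructor
    · intro h
      exact ⟨⟨y, hy⟩, Subtype.ext (Prod.ext h.symm rfl)⟩
    · rintro ⟨m, hm⟩
      exact (congrArg (fun v : Vx N M => v.1.1) hm).symm
  have hWc : W.ncard = M := by
    rw [hW, Set.ncard_image_of_injective _ he, Set.ncard_univ, Nat.card_eq_fintype_card,
      Fintype.card_fin]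
  obtain ⟨A, ⟨t, ht⟩, h1, h2⟩ := balanced_cut (MG N M) k hcw W (by omega)
  -- transfer
  let A' : Set (ℕ × ℕ) := {p | ∃ h : p.1 ≤ N ∧ p.2 < M, (⟨p, h⟩ : Vx N M) ∈ A}
  let l' : ℕ × ℕ → ℕ := fun p => if h : p.1 ≤ N ∧ p.2 < M then (t ⟨p, h⟩ : ℕ) else 0
  have D : Dat k N M A' l' := by
    constructor
    · intro j i hj hi
      have : l' (j, i) = t ⟨(j, i), hj, hi⟩ := dif_pos (show (j, i).1 ≤ N ∧ (j, i).2 < M from ⟨hj, hi⟩)
      rw [this]
      exact (t _).2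
    · intro j i j' i' j'' i'' hj hi hj' hi' hj'' hi'' hA1 hA2 hA3 hl
      have e1 : l' (j, i) = t ⟨(j, i), hj, hi⟩ :=
        dif_pos (show (j, i).1 ≤ N ∧ (j, i).2 < M from ⟨hj, hi⟩)
      have e2 : l' (j', i') = t ⟨(j', i'), hj', hi'⟩ :=
        dif_pos (show (j', i').1 ≤ N ∧ (j', i').2 < M from ⟨hj', hi'⟩)
      rw [e1, e2] at hl
      obtain ⟨_, hA1⟩ := hA1
      obtain ⟨_, hA2⟩ := hA2
      have hA3' : (⟨(j'', i''), hj'', hi''⟩ : Vx N M) ∉ A := fun h => hA3 ⟨⟨hj'', hi''⟩, h⟩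
      have := ht _ hA1 _ hA2 (Fin.ext hl) _ hA3'
      rw [MG_adj, MG_adj] at this
      have n1 : (⟨(j, i), hj, hi⟩ : Vx N M) ≠ ⟨(j'', i''), hj'', hi''⟩ := by
        intro h; exact hA3' (h ▸ hA1)
      have n2 : (⟨(j', i'), hj', hi'⟩ : Vx N M) ≠ ⟨(j'', i''), hj'', hi''⟩ := by
        intro h; exact hA3' (h ▸ hA2)
      constructor
      · intro h
        exact (this.1 ⟨n1, h⟩).2
      · intro h
        exact (this.2 ⟨n2, h⟩).2
  have hcard : (A ∩ W).ncard = ((Finset.range M).filter (fun m => (0, m) ∈ A')).card := by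
    have h3 : A ∩ W = e '' (e ⁻¹' A) := by
      rw [hW, Set.image_univ, Set.image_preimage_eq_inter_range]
    rw [h3, Set.ncard_image_of_injective _ he]
    have h4 : (e ⁻¹' A).ncard = (Fin.val '' (e ⁻¹' A)).ncard :=
      (Set.ncard_image_of_injective _ Fin.val_injective).symm
    rw [h4, ← Set.ncard_coe_finset]
    congr 1
    ext m
    simp only [Set.mem_image, Set.mem_preimage, Finset.coe_filter, Finset.mem_range,
      Set.mem_ofPred_eq]
    constructor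
    · rintro ⟨x, hx, rfl⟩
      exact ⟨x.2, ⟨Nat.zero_le _, x.2⟩, hx⟩
    · rintro ⟨hm, h, hA⟩
      exact ⟨⟨m, hm⟩, hA, rfl⟩
  have hsum := Finset.card_filter_add_card_filter_not (s := Finset.range M)
    (fun m => (0, m) ∈ A')
  rw [Finset.card_range] at hsum
  refine core D (g := g) (by omega) hM ?_ hN ?_ ?_
  · have := Nat.lt_two_pow_self (n := g)
    omega
  · omega
  · omega

/-- TASK M -/
theorem famM (c : ℕ) : ∃ (V : Type) (_ : Finite V) (_ : Nonempty V) (G : SimpleGraph V),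
    IsIntervalGraph G ∧ NoC22 G ∧ ¬ CwLE G c := by
  obtain ⟨N, M, hM, h⟩ := MG_not_cw c
  exact ⟨Vx N M, inferInstance, ⟨⟨(0, 0), Nat.zero_le _, hM⟩⟩, MG N M, MG_interval N M,
    MG_noC22 N M, h⟩

end Pool.Agent.H375R2.IvM
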